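import Pool.Agent.H71.ASF.Stmts

/-!
# ASF, module OD1: the two identities for a first level orthogonal pair
-/

namespace ASF

universe u

namespace OD1

section op
open MulOpposite
variable {A : Type u} [NonUnitalNonAssocRing A]

instance altOp [Alt A] : Alt Aᵐᵒᵖ where
  left x y := by
    apply unop_injective
    simp only [unop_mul]
    exact Alt.right (unop x) (unop y)
  right x y := by
    apply unop_injective
    simp only [unop_mul]
    exact Alt.left (unop x) (unop y)

instance ntOp [NT A] : NT Aᵐᵒᵖ where
  two x h := by
    apply unop_injective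
    exact NT.two (unop x) (by rw [← unop_add, h, unop_zero])
  three x h := by
    apply unop_injective
    exact NT.three (unop x) (by rw [← unop_add, ← unop_add, h, unop_zero])

theorem asc_op [Alt A] (x y z : A) : asc (op x) (op y) (op z) = op (asc x y z) := by
  have e : asc (op x) (op y) (op z) = op (- asc z y x) := by
    simp only [asc, ← op_mul, ← op_sub, ← op_neg]
    congr 1
    abel
  rw [e, asc_s13 x y z, neg_neg]

theorem cm_op (x y : A) : cm (op x) (op y) = - op (cm x y) := by
  simp only [cm, ← op_mul, ← op_sub, ← op_neg]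
  congr 1
  abel

theorem o1_op {r s : A} (h : O1 r s) : O1 (op r) (op s) := by
  constructor
  · exact congrArg op h.sr
  · exact congrArg op h.rs
  · intro a; exact congrArg op (h.s_ar (unop a))
  · intro a; exact congrArg op (h.s_ra (unop a))
  · intro a; exact congrArg op (h.ar_s (unop a))
  · intro a; exact congrArg op (h.ra_s (unop a))
  · intro a; exact congrArg op (h.as_r (unop a))
  · intro a; exact congrArg op (h.sa_r (unop a))
  · intro a; exact congrArg op (h.r_as (unop a))
  · intro a; exact congrArg op (h.r_sa (unop a))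

end op

theorem first (h1 : OPFStmt.{u}) (A : Type u) [NonUnitalNonAssocRing A] [Alt A] [NT A] (r s : A)
    (h : O1 r s) (a c z : A) :
    asc (asc r a c) s z + asc (asc r a z) s c + cm (asc r c z * s) a
      - 2 • cm (asc r a z * s) c = 0 := by
  have f := h1 A r s h
  -- B1
  have k1 : kl c (a * r) s z = asc (c * (a * r)) s z - (a * r) * asc c s z
    - asc (a * r) s z * c := rfl
  have k2 : kl s (a * r) c z = asc (s * (a * r)) c z - (a * r) * asc s c z
    - asc (a * r) c z * s := rfl
  have k12 : kl c (a * r) s z = - kl s (a * r) c z := by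
    rw [kl_s12 (a * r) c s z, kl_s23 (a * r) s c z, kl_s12 s (a * r) c z, neg_neg]
  rw [h.s_ar, asc_zero1] at k2
  rw [asc_s12 c s z, mul_neg] at k2
  rw [f.ar_s_c] at k1
  have e1 : asc (c * (a * r)) s z = asc ((c * a) * r) s z + asc (asc r a c) s z := by
    have e : c * (a * r) = (c * a) * r + asc r a c := by
      rw [asc_s13 c a r]; simp only [asc]; abel
    rw [e, asc_add1]
  rw [f.ar_s_c] at e1
  have d1 : asc r (c * a) z * s = asc r c z * s * a + c * (asc r a z * s) :=
    (f.phi_der' z).mul c a
  -- B2
  have m1 : kl a c z r = asc (a * c) z r - c * asc a z r - asc c z r * a := rfl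
  have m2 : kl a r c z = asc (a * r) c z - r * asc a c z - asc r c z * a := rfl
  have m12 : kl a c z r = kl a r c z := by
    rw [kl_s34 a c r z, kl_s23 a r c z, neg_neg]
  rw [asc_cyc r c z, asc_cyc r a z, asc_cyc r (a * c) z] at m1
  have b : asc (a * r) c z * s
      = asc r (a * c) z * s - c * (asc r a z * s) - asc (asc r a z) s c := by
    have q : asc r (a * c) z - c * asc r a z = asc (a * r) c z - r * asc a c z := by
      linear_combination (norm := abel) m2 - m1 + m12
    have q2 := congrArg (fun t => t * s) q
    simp only [sub_mul] at q2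
    rw [h.ra_s, sub_zero] at q2
    rw [← q2]
    have e : (c * asc r a z) * s = c * (asc r a z * s) + asc (asc r a z) s c := by
      rw [asc_cyc c (asc r a z) s]; simp only [asc]; abel
    rw [e]; abel
  have d2 : asc r (a * c) z * s = asc r a z * s * c + a * (asc r c z * s) :=
    (f.phi_der' z).mul a c
  rw [d2] at b
  rw [b] at k2
  rw [d1] at e1
  have c1 : cm (asc r c z * s) a = asc r c z * s * a - a * (asc r c z * s) := rfl
  have c2 : cm (asc r a z * s) c = asc r a z * s * c - c * (asc r a z * s) := rfl
  rw [c1, c2]
  linear_combination (norm := abel) k12 - k1 - k2 - e1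

end OD1

open OD1 MulOpposite in
theorem od1 (h1 : OPFStmt.{u}) : OD1Stmt.{u} := by
  intro A _ _ _ r s h a c z
  refine ⟨first h1 A r s h a c z, ?_⟩
  have t := first h1 Aᵐᵒᵖ (op r) (op s) (o1_op h) (op a) (op c) (op z)
  simp only [asc_op, ← op_mul, cm_op, ← op_add, ← op_sub, ← op_neg, ← op_smul] at t
  have t2 := op_injective (t.trans op_zero.symm)
  rw [← t2]
  simp only [smul_neg, sub_neg_eq_add]
  abel

end ASF
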