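import Pool.Agent.H71.ASF.Stmts

/-!
# ASF, module ODK: words of `D_{r,a} x` and of `s` are orthogonal when `φ = ψ = 0`
-/

namespace ASF

universe u

theorem odk (h1 : ODSStmt.{u}) (h2 : NLMStmt.{u}) : ODKStmt.{u} := by
  intro A _ _ _ r s h hφ hψ a x l m
  have q := h1 A r s h hφ hψ a
  have t := h2 A Unit (fun _ => DS r a) (fun _ => s) (fun _ => DS_isDer r a) (fun x => by
    have h := q x
    constructor <;> intros <;> simp only [Finset.univ_unique, Finset.sum_singleton]
    · exact h.rs
    · exact h.sr
    · exact h.ra_s _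
    · exact h.ar_s _
    · exact h.s_ra _
    · exact h.s_ar _
    · exact h.r_sa _
    · exact h.r_as _
    · exact h.sa_r _
    · exact h.as_r _) x l m
  simpa using t

end ASF
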