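import Pool.Agent.H71.ASF.Stmts

/-!
# ASF, module ODS: `D_{r,a} x` is first level orthogonal to `s` when `φ = ψ = 0`
-/

namespace ASF

universe u

namespace ODS

theorem toF {A : Type*} [NonUnitalNonAssocRing A] {r s : A} (h : O1 r s) :
    O1F (ι := Unit) (fun _ => r) (fun _ => s) := by
  constructor <;> intros <;> simp only [Finset.univ_unique, Finset.sum_singleton]
  · exact h.rs
  · exact h.sr
  · exact h.ra_s _
  · exact h.ar_s _
  · exact h.s_ra _
  · exact h.s_ar _
  · exact h.r_sa _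
  · exact h.r_as _
  · exact h.sa_r _
  · exact h.as_r _

theorem ofF {A : Type*} [NonUnitalNonAssocRing A] {r s : A}
    (h : O1F (ι := Unit) (fun _ => r) (fun _ => s)) : O1 r s := by
  constructor
  · simpa using h.rs
  · simpa using h.sr
  · intro a; simpa using h.ra_s a
  · intro a; simpa using h.ar_s a
  · intro a; simpa using h.s_ra a
  · intro a; simpa using h.s_ar a
  · intro a; simpa using h.r_sa a
  · intro a; simpa using h.r_as a
  · intro a; simpa using h.sa_r a
  · intro a; simpa using h.as_r a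

end ODS

open ODS in
theorem ods (h1 : OPFStmt.{u}) (h2 : OMMStmt.{u}) (h3 : NSLStmt.{u}) : ODSStmt.{u} := by
  intro A _ _ _ r s h hφ hψ a
  have f := h1 A r s h
  have mm := h2 A r s h hφ hψ a
  obtain ⟨-, -, n3, n4⟩ := h3 A Unit (fun _ => r) (fun _ => s) (toF h)
    (fun a c => by simpa using hφ a c) (fun a c => by simpa using hψ a c) a
  have q1 : O1 (r * a) s := ofF n3
  have q2 : O1 (a * r) s := ofF n4
  have hD := DS_isDer r a
  -- `D s = 0`
  have Ds : DS r a s = 0 := by
    have e1 : cm (cm r a) s = 0 := by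
      simp only [cm, sub_mul, mul_sub]
      rw [h.ra_s, h.ar_s, h.s_ra, h.s_ar]; simp
    have e2 : asc r a s = 0 := by
      rw [asc, h.ra_s, h.r_as, sub_zero]
    rw [DS, e1, e2, smul_zero, sub_zero]
  have D1 : ∀ x, DS r a x * s = 0 := by
    intro x
    rw [DS, sub_mul, smul_mul_assoc, hφ, smul_zero, sub_zero]
    simp only [cm, sub_mul, mul_sub]
    rw [q1.ra_s, q2.ra_s, q1.ar_s, q2.ar_s]; simp
  have D2 : ∀ x, s * DS r a x = 0 := by
    intro x
    rw [DS, mul_sub, mul_smul_comm, hψ, smul_zero, sub_zero]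
    simp only [cm, sub_mul, mul_sub]
    rw [q1.s_ra, q2.s_ra, q1.s_ar, q2.s_ar]; simp
  have A1 : ∀ x c, asc (DS r a x) s c = 0 := mm
  have A2 : ∀ x c, asc (DS r a x) c s = 0 := fun x c => by
    rw [asc_s23 (DS r a x) s c, A1, neg_zero]
  have A3 : ∀ x c, asc s c (DS r a x) = 0 := fun x c => by
    rw [asc_cyc (DS r a x) s c, A1]
  have A4 : ∀ x c, asc c s (DS r a x) = 0 := fun x c => by
    rw [asc_s12 s c, A3, neg_zero]
  have A5 : ∀ x c, asc c (DS r a x) s = 0 := fun x c => by
    rw [← asc_cyc c (DS r a x) s, A1]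
  have A6 : ∀ x c, asc s (DS r a x) c = 0 := fun x c => by
    rw [asc_s12 (DS r a x) s c, A1, neg_zero]
  have Dcs : ∀ c, DS r a (c * s) = 0 := fun c => by
    rw [hD.mul, D1, Ds, mul_zero, add_zero]
  have Dsc : ∀ c, DS r a (s * c) = 0 := fun c => by
    rw [hD.mul, D2, Ds, zero_mul, add_zero]
  intro x
  have P1 : ∀ c, DS r a x * (c * s) = 0 := by
    intro c
    have e := hD.mul x (c * s)
    rw [Dcs, mul_zero, add_zero] at e
    rw [← e]
    have e1 : x * (c * s) = (x * c) * s - asc x c s := by simp only [asc]; abel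
    rw [e1, hD.sub, Dcs, hD.asc, Ds, A2, A5, asc_zero3]; simp
  have P2 : ∀ c, (s * c) * DS r a x = 0 := by
    intro c
    have e := hD.mul (s * c) x
    rw [Dsc, zero_mul, zero_add] at e
    rw [← e]
    have e1 : (s * c) * x = s * (c * x) + asc s c x := by simp only [asc]; abel
    rw [e1, hD.add, Dsc, hD.asc, Ds, A6, A3, asc_zero1]; simp
  have m1 : ∀ u v w : A, (u * v) * w = asc u v w + u * (v * w) := fun u v w => by
    simp only [asc]; abel
  have m2 : ∀ u v w : A, u * (v * w) = (u * v) * w - asc u v w := fun u v w => by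
    simp only [asc]; abel
  refine ⟨D1 x, D2 x, fun c => ?_, fun c => ?_, fun c => ?_, fun c => ?_, fun c => ?_, P1, P2,
    fun c => ?_⟩
  · rw [m1, A2, P1, add_zero]
  · rw [m1, A5, D1, mul_zero, add_zero]
  · rw [m2, A6, D2, zero_mul, sub_zero]
  · rw [m2, A3, P2, sub_zero]
  · rw [m2, A1, D1, zero_mul, sub_zero]
  · rw [m1, A4, D2, mul_zero, add_zero]

end ASF
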