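import Pool.Agent.H71.ASF.Stmts

/-!
# ASF, module OI3: words of `r` and of `s` are orthogonal when all `D_{r,a} = 0`
-/

namespace ASF

universe u

theorem oi3 : OI3Stmt.{u} := by
  intro A _ _ _ r s h hD
  -- first step: from `r y = y r = 0` to `r (y c) = 0`, `(c y) r = 0`, `(y c) r = - r (c y)`
  have st : ∀ y : A, r * y = 0 → y * r = 0 → ∀ c : A, asc r y c = 0 ∧ r * (y * c) = 0 ∧
      (c * y) * r = 0 ∧ (y * c) * r = - (r * (c * y)) := by
    intro y h1 h2 c
    have e0 : asc r y c = 0 := by
      have e := hD y c
      have ec : cm r y = 0 := by rw [cm, h1, h2, sub_zero]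
      rw [DS, ec, cm_zero1, zero_sub] at e
      exact c3 (neg_eq_zero.mp e)
    have e1 : asc r c y = 0 := by rw [asc_s23 r y c, e0, neg_zero]
    have e2 : asc c y r = 0 := by rw [asc_cyc r c y, e1]
    have e3 : asc y c r = 0 := by rw [asc_cyc r y c, e0]
    have e4 : asc c r y = 0 := by rw [asc_s12 r c y, e1, neg_zero]
    have e5 : asc y r c = 0 := by rw [asc_s12 r y c, e0, neg_zero]
    refine ⟨e0, ?_, ?_, ?_⟩
    · have e : r * (y * c) = (r * y) * c - asc r y c := by simp only [asc]; abel
      rw [e, h1, e0, zero_mul, sub_zero]
    · have e : (c * y) * r = c * (y * r) + asc c y r := by simp only [asc]; abel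
      rw [e, h2, e2, mul_zero, add_zero]
    · have d := hD c y
      rw [DS, e1, smul_zero, sub_zero] at d
      simp only [cm, sub_mul, mul_sub] at d
      have f1 : (r * c) * y = r * (c * y) := by
        have e : (r * c) * y = r * (c * y) + asc r c y := by simp only [asc]; abel
        rw [e, e1, add_zero]
      have f2 : (c * r) * y = 0 := by
        have e : (c * r) * y = c * (r * y) + asc c r y := by simp only [asc]; abel
        rw [e, h1, e4, mul_zero, add_zero]
      have f3 : y * (r * c) = 0 := by
        have e : y * (r * c) = (y * r) * c - asc y r c := by simp only [asc]; abel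
        rw [e, h2, e5, zero_mul, sub_zero]
      have f4 : y * (c * r) = (y * c) * r := by
        have e : y * (c * r) = (y * c) * r - asc y c r := by simp only [asc]; abel
        rw [e, e3, sub_zero]
      rw [f1, f2, f3, f4] at d
      linear_combination (norm := abel) d
  -- words of `s`
  have P : ∀ n : ℕ, ∀ m : List (Bool × A), m.length ≤ n → r * wd m s = 0 ∧ wd m s * r = 0 := by
    intro n
    induction n with
    | zero =>
      intro m hm
      have : m = [] := List.length_eq_zero_iff.mp (by omega)
      subst this
      exact ⟨h.rs, h.sr⟩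
    | succ n ih =>
      intro m hm
      match m, hm with
      | [], _ => exact ⟨h.rs, h.sr⟩
      | [(true, c)], _ => exact ⟨h.r_as c, h.as_r c⟩
      | [(false, c)], _ => exact ⟨h.r_sa c, h.sa_r c⟩
      | (b, c) :: (b', d) :: m', hm =>
        have hl : m'.length + 1 + 1 ≤ n + 1 := by simpa using hm
        set z := wd m' s with hz
        -- words of length `length m' + 1`
        have w1 : ∀ e, r * (e * z) = 0 ∧ (e * z) * r = 0 := fun e =>
          ih ((true, e) :: m') (by simp only [List.length_cons]; omega)
        have w2 : ∀ e, r * (z * e) = 0 ∧ (z * e) * r = 0 := fun e =>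
          ih ((false, e) :: m') (by simp only [List.length_cons]; omega)
        have key : ∀ y : A, (y = d * z ∨ y = z * d) → r * (c * y) = 0 := by
          intro y hy
          have hzcd : r * asc z c d = 0 := by
            have e : r * asc z c d = r * ((z * c) * d) - r * (z * (c * d)) := by
              simp only [asc, mul_sub]
            rw [e, (w2 (c * d)).1, (st (z * c) (w2 c).1 (w2 c).2 d).2.1, sub_zero]
          rcases hy with rfl | rfl
          · have e : c * (d * z) = (c * d) * z - asc c d z := by simp only [asc]; abel
            rw [e, mul_sub, (w1 (c * d)).1, asc_cyc z c d, hzcd, sub_zero]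
          · have e : c * (z * d) = (c * z) * d - asc c z d := by simp only [asc]; abel
            rw [e, mul_sub, asc_s12 z c d, mul_neg, hzcd,
              (st (c * z) (w1 c).1 (w1 c).2 d).2.1, neg_zero, sub_zero]
        have gen : ∀ y : A, (y = d * z ∨ y = z * d) → r * y = 0 → y * r = 0 →
            (r * (c * y) = 0 ∧ (c * y) * r = 0) ∧ (r * (y * c) = 0 ∧ (y * c) * r = 0) := by
          intro y hy h1 h2
          obtain ⟨-, g1, g2, g3⟩ := st y h1 h2 c
          have g4 := key y hy
          refine ⟨⟨g4, g2⟩, ⟨g1, ?_⟩⟩
          rw [g3, g4, neg_zero]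
        cases b' with
        | true =>
          have g := gen (d * z) (Or.inl rfl) (w1 d).1 (w1 d).2
          cases b with
          | true => exact g.1
          | false => exact g.2
        | false =>
          have g := gen (z * d) (Or.inr rfl) (w2 d).1 (w2 d).2
          cases b with
          | true => exact g.1
          | false => exact g.2
  intro l
  induction l with
  | nil => intro m; exact P m.length m le_rfl
  | cons a l ih =>
    obtain ⟨b, c⟩ := a
    intro m
    set u := wd l r with hu
    set t := wd m s with ht
    have i0 := ih m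
    have i1 : u * (c * t) = 0 ∧ (c * t) * u = 0 := ih ((true, c) :: m)
    have i2 : u * (t * c) = 0 ∧ (t * c) * u = 0 := ih ((false, c) :: m)
    have e0 : asc u t c = 0 := by rw [asc, i0.1, i2.1, zero_mul, sub_zero]
    have e1 : asc u c t = 0 := by rw [asc_s23 u t c, e0, neg_zero]
    have e2 : asc t u c = 0 := by rw [asc_s12 u t c, e0, neg_zero]
    have e3 : asc c u t = 0 := by rw [← asc_cyc c u t, e0]
    have e4 : asc t c u = 0 := by rw [asc_cyc u t c, e0]
    cases b with
    | true =>
      change (c * u) * t = 0 ∧ t * (c * u) = 0
      constructor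
      · have e : (c * u) * t = c * (u * t) + asc c u t := by simp only [asc]; abel
        rw [e, i0.1, e3, mul_zero, add_zero]
      · have e : t * (c * u) = (t * c) * u - asc t c u := by simp only [asc]; abel
        rw [e, i2.2, e4, sub_zero]
    | false =>
      change (u * c) * t = 0 ∧ t * (u * c) = 0
      constructor
      · have e : (u * c) * t = u * (c * t) + asc u c t := by simp only [asc]; abel
        rw [e, i1.1, e1, add_zero]
      · have e : t * (u * c) = (t * u) * c - asc t u c := by simp only [asc]; abel
        rw [e, i0.2, e2, zero_mul, sub_zero]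

end ASF
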