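import Pool.Agent.H71.ASF.Stmts

/-!
# ASF, module OMM: `(D_{r,a} x, s, c) = 0` when `φ = ψ = 0`
-/

namespace ASF

universe u

namespace OMM

theorem o1_symm {A : Type*} [NonUnitalNonAssocRing A] {r s : A} (h : O1 r s) : O1 s r :=
  ⟨h.sr, h.rs, h.sa_r, h.as_r, h.r_sa, h.r_as, h.s_ra, h.s_ar, h.ra_s, h.ar_s⟩

end OMM

open OMM in
theorem omm (h1 : OPFStmt.{u}) (h2 : OD1Stmt.{u}) : OMMStmt.{u} := by
  intro A _ _ _ r s h hφ hψ
  have f := h1 A r s h
  have hs := o1_symm h
  have hφ' : ∀ a c, asc s a c * r = 0 := fun a c => by rw [f.sac_r, hψ, neg_zero]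
  have hψ' : ∀ a c, r * asc s a c = 0 := fun a c => by rw [f.r_sac, hφ, neg_zero]
  -- X' is alternating
  have x1 : ∀ a c z, asc (asc s a z) r c = - asc (asc s a c) r z := by
    intro a c z
    have e := (h2 A s r hs a c z).1
    rw [hφ', hφ', cm_zero1, cm_zero1, smul_zero, sub_zero, add_zero] at e
    exact eq_neg_of_add_eq_zero_right e
  have x0 : ∀ a c, asc (asc s a c) r a = 0 := by
    intro a c
    rw [x1 a a c, asc_yxx, asc_zero1, neg_zero]
  -- (i)
  have i1 : ∀ a c z, r * asc (s * a) c z = asc (asc s a c) r z := by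
    intro a c z
    have k1 : kl (s * a) c r z = asc ((s * a) * c) r z - c * asc (s * a) r z
      - asc c r z * (s * a) := rfl
    have k2 : kl (s * a) r c z = asc ((s * a) * r) c z - r * asc (s * a) c z
      - asc r c z * (s * a) := rfl
    have k3 := kl_s23 (s * a) c r z
    have e1 : asc ((s * a) * c) r z = asc (asc s a c) r z := by
      have e : (s * a) * c = asc s a c + s * (a * c) := by simp only [asc]; abel
      rw [e, asc_add1, f.sa_r_c, hφ, neg_zero, add_zero]
    rw [e1, f.sa_r_c, hφ, neg_zero, mul_zero, sub_zero, asc_s12 r c z, neg_mul] at k1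
    rw [h.sa_r, asc_zero1] at k2
    linear_combination (norm := abel) k1 + k2 - k3
  -- (ii)
  have ra0 : ∀ a x y, asc (r * a) s x * y = 0 := fun a x y => by
    rw [f.ra_s_c, hψ, zero_mul]
  have i2 : ∀ a c, asc (a * (r * a)) s c = 0 := by
    intro a c
    have k1 : kl a (r * a) s c = asc (a * (r * a)) s c - (r * a) * asc a s c
      - asc (r * a) s c * a := rfl
    have k2 : kl s (r * a) a c = asc (s * (r * a)) a c - (r * a) * asc s a c
      - asc (r * a) a c * s := rfl
    have k3 : kl c a (r * a) s = asc (c * a) (r * a) s - a * asc c (r * a) s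
      - asc a (r * a) s * c := rfl
    have p0 : ∀ x, asc (r * a) s x = 0 := fun x => by rw [f.ra_s_c, hψ]
    have p1 : ∀ x, asc x (r * a) s = 0 := fun x => by rw [← asc_cyc x (r * a) s, p0]
    rw [p1, p1, p1, mul_zero, zero_mul, sub_zero, sub_zero] at k3
    have k4 : kl a (r * a) s c = 0 := by
      have : kl a (r * a) s c = - kl c a (r * a) s := by rw [kl_cyc c a (r * a) s]
      rw [this, k3, neg_zero]
    rw [k4, p0, zero_mul, sub_zero, asc_s12 s a c, mul_neg, sub_neg_eq_add] at k1
    have e1 : (r * a) * asc s a c = r * (a * asc s a c) + asc r a (asc s a c) := by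
      simp only [asc]; abel
    have e2 : asc r a (asc s a c) = 0 := by
      rw [← asc_cyc' r a (asc s a c), x0]
    have e3 : a * asc s a c = asc (s * a) a c := by
      have m := mou1 a s c
      rw [asc_s12 (s * a) a c, asc_s12 s a c] at m
      rw [mul_neg] at m
      exact (neg_injective m).symm
    rw [e1, e2, e3, i1, asc_yxx, asc_zero1, zero_add, add_zero] at k1
    exact k1.symm
  -- (iii)
  have cr0 : ∀ a x c, asc (cm a x * r) s c = 0 := fun a x c => by rw [f.ar_s_c, hφ]
  have rc0 : ∀ x c, asc (r * x) s c = 0 := fun x c => by rw [f.ra_s_c, hψ]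
  have xr0 : ∀ x c, asc (x * r) s c = 0 := fun x c => by rw [f.ar_s_c, hφ]
  have M0 : ∀ a c, asc (cm (cm r a) a) s c = 0 := by
    intro a c
    have e : cm (cm r a) a = r * (a * a) - 2 • (a * (r * a)) + (a * a) * r := by
      have e1 : (r * a) * a = r * (a * a) := Alt.right a r
      have e2 : a * (a * r) = (a * a) * r := Alt.left a r
      have e3 : (a * r) * a = a * (r * a) := flex a r
      simp only [cm, sub_mul, mul_sub]
      rw [e1, e2, e3]; abel
    rw [e, asc_add1, asc_sub1, asc_nsmul1, i2, rc0, xr0, smul_zero, sub_zero, add_zero]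
  have Ms : ∀ a x c, asc (cm (cm r x) a) s c = - asc (cm (cm r a) x) s c := by
    intro a x c
    have e := M0 (a + x) c
    simp only [cm_add1, cm_add2, asc_add1, M0, zero_add, add_zero] at e
    first
      | exact eq_neg_of_add_eq_zero_right e
      | exact eq_neg_of_add_eq_zero_left e
  intro a x c
  have j := congrArg (fun t => asc t s c) (jacobi r a x)
  simp only [asc_add1] at j
  rw [asc_nsmul1] at j
  have j1 : asc (cm (cm a x) r) s c = 0 := by
    rw [cm, asc_sub1, cr0, rc0, sub_zero]
  have j2 : asc (cm (cm x r) a) s c = asc (cm (cm r a) x) s c := by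
    rw [cm_swap r x, cm_neg1, asc_neg1, Ms a x c, neg_neg]
  rw [j1, j2, add_zero] at j
  apply c2
  rw [DS, asc_sub1, asc_nsmul1]
  simp only [smul_sub]
  linear_combination (norm := abel) j

end ASF
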