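import Pool.Agent.H71.ASF.Stmts

/-!
# ASF, module ONU: nuclearity of `(r,a,c) s` and `s (r,a,c)`
-/

namespace ASF

universe u

theorem onu (h1 : OPFStmt.{u}) (h2 : OD1Stmt.{u}) : ONUStmt.{u} := by
  intro A _ _ _ r s h
  have f := h1 A r s h
  have od := h2 A r s h
  -- abbreviations
  set φ : A → A → A := fun a c => asc r a c * s with hφ
  set ψ : A → A → A := fun a c => s * asc r a c with hψ
  have o1 : ∀ a c z, asc (asc r a c) s z + asc (asc r a z) s c + cm (φ c z) a
      - 2 • cm (φ a z) c = 0 := fun a c z => (od a c z).1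
  have o2 : ∀ a c z, asc (asc r a c) s z + asc (asc r a z) s c - cm (ψ c z) a
      + 2 • cm (ψ a z) c = 0 := fun a c z => (od a c z).2
  have sφ : ∀ a c, φ c a = - φ a c := fun a c => by
    simp only [hφ]; rw [asc_s23 r a c, neg_mul]
  have sψ : ∀ a c, ψ c a = - ψ a c := fun a c => by
    simp only [hψ]; rw [asc_s23 r a c, mul_neg]
  -- k = φ + ψ is central
  have k1 : ∀ a c z, cm (φ c z) a + cm (ψ c z) a = 2 • (cm (φ a z) c + cm (ψ a z) c) := by
    intro a c z
    have e1 := o1 a c z
    have e2 := o2 a c z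
    rw [smul_add]
    linear_combination (norm := abel) e1 - e2
  have k2 : ∀ x y z, cm (ψ x y) z = - cm (φ x y) z := by
    intro c z a
    have e1 := k1 a c z
    have e2 := k1 c a z
    have e3 : 3 • (cm (φ c z) a + cm (ψ c z) a) = 0 := by
      rw [smul_add] at e1 e2
      simp only [smul_add]
      linear_combination (norm := abel) -e1 - (2:ℤ) • e2
    have e4 := c3 e3
    exact eq_neg_of_add_eq_zero_right e4
  -- cyclic sum
  have cyc : ∀ a c z, cm (φ a c) z + cm (φ c z) a + cm (φ z a) c = 0 := by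
    intro a c z
    have e1 := o1 a c z
    have e2 := o1 a z c
    rw [sφ c z, cm_neg1] at e2
    apply c2
    rw [sφ a z, cm_neg1]
    simp only [smul_add, smul_neg]
    linear_combination (norm := abel) e1 - e2
  -- (φ - ψ)([x,y],z) = 2 [φ(x,y),z]
  have om : ∀ x y z, φ (cm x y) z - ψ (cm x y) z = 2 • cm (φ x y) z := by
    intro x y z
    have e1 : φ (cm x y) z = cm (φ x z) y + cm x (φ y z) := (f.phi_der' z).cm x y
    have e2 : ψ (cm x y) z = cm (ψ x z) y + cm x (ψ y z) := (f.psi_der' z).cm x y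
    have e3 := cyc x y z
    rw [e1, e2, cm_swap (φ y z) x, cm_swap (ψ y z) x, k2, k2]
    rw [sφ x z, cm_neg1] at e3
    linear_combination (norm := abel) (-2:ℤ) • e3
  have pd : ∀ x y u v, cm (φ x y) (u * v) = cm (φ x y) u * v + u * cm (φ x y) v := by
    intro x y u v
    apply e2
    have d1 : φ (cm x y) (u * v) = φ (cm x y) u * v + u * φ (cm x y) v :=
      (f.phi_der (cm x y)).mul u v
    have d2 : ψ (cm x y) (u * v) = ψ (cm x y) u * v + u * ψ (cm x y) v :=
      (f.psi_der (cm x y)).mul u v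
    rw [← om, d1, d2, smul_add, ← smul_mul_assoc, ← mul_smul_comm, ← om, ← om, sub_mul, mul_sub]
    abel
  intro a c
  refine ⟨nuc_of_cm _ fun x y => pd a c x y, nuc_of_cm _ fun x y => ?_⟩
  have e := pd a c x y
  have e1 := k2 a c (x * y)
  have e3 := k2 a c x
  have e4 := k2 a c y
  change cm (ψ a c) (x * y) = cm (ψ a c) x * y + x * cm (ψ a c) y
  rw [e1, e3, e4, e, neg_mul, mul_neg, neg_add]

end ASF
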