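import Pool.Agent.H71.ASF.Stmts

/-!
# ASF, module OPF: facts for a first level orthogonal pair
-/

namespace ASF

universe u

namespace OPF

theorem toF {A : Type*} [NonUnitalNonAssocRing A] {r s : A} (h : O1 r s) :
    O1F (ι := Unit) (fun _ => r) (fun _ => s) := by
  constructor <;> intros <;> simp only [Finset.univ_unique, Finset.sum_singleton]
  · exact h.rs
  · exact h.sr
  · exact h.ra_s _
  · exact h.ar_s _
  · exact h.s_ra _
  · exact h.s_ar _
  · exact h.r_sa _
  · exact h.r_as _
  · exact h.sa_r _
  · exact h.as_r _

theorem ofF {A : Type*} [NonUnitalNonAssocRing A] {r s : A}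
    (h : O1F (ι := Unit) (fun _ => r) (fun _ => s)) : O1 r s := by
  constructor
  · simpa using h.rs
  · simpa using h.sr
  · intro a; simpa using h.ra_s a
  · intro a; simpa using h.ar_s a
  · intro a; simpa using h.s_ra a
  · intro a; simpa using h.s_ar a
  · intro a; simpa using h.r_sa a
  · intro a; simpa using h.r_as a
  · intro a; simpa using h.sa_r a
  · intro a; simpa using h.as_r a

theorem neg_der {A : Type*} [NonUnitalNonAssocRing A] {D : A → A} (h : IsDer D) :
    IsDer (fun x => - D x) := by
  constructor
  · intro x y; rw [h.add, neg_add]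
  · intro x y; rw [h.mul, neg_add, neg_mul, mul_neg]

end OPF

open OPF in
theorem opf (h1 : NFAStmt.{u}) : OPFStmt.{u} := by
  intro A _ _ _ r s h
  have f := h1 A Unit (fun _ => r) (fun _ => s) (toF h)
  have ar : ∀ a c, asc (a * r) s c = asc r a c * s := fun a c => by simpa using f.ar_s_c a c
  have ra : ∀ a c, asc (r * a) s c = s * asc r a c := fun a c => by simpa using f.ra_s_c a c
  have pd : ∀ a, IsDer (fun c => asc r a c * s) := fun a => by
    have e : (fun c => asc r a c * s) = asc (a * r) s := by funext c; rw [ar]
    rw [e]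
    exact asc_isDer _ _ (h.ar_s a) (h.s_ar a)
  have qd : ∀ a, IsDer (fun c => s * asc r a c) := fun a => by
    have e : (fun c => s * asc r a c) = asc (r * a) s := by funext c; rw [ra]
    rw [e]
    exact asc_isDer _ _ (h.ra_s a) (h.s_ra a)
  refine ⟨fun a => by simpa using f.as0 a, fun a c => by simpa using f.r_sac a c,
    fun a c => by simpa using f.sac_r a c, ar, ra, fun a c => by simpa using f.as_r_c a c,
    fun a c => by simpa using f.sa_r_c a c, pd, qd, fun c => ?_, fun c => ?_⟩
  · have e : (fun a => asc r a c * s) = fun a => - (asc r c a * s) := by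
      funext a; rw [asc_s23 r c a, neg_mul]
    rw [e]; exact neg_der (pd c)
  · have e : (fun a => s * asc r a c) = fun a => - (s * asc r c a) := by
      funext a; rw [asc_s23 r c a, mul_neg]
    rw [e]; exact neg_der (qd c)

end ASF
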